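import Pool.Agent.Y843.HG.Gold

/-!
Narrow progressions in sets of Goldbach representations by primes or numbers without small prime
factors (adapted from `gold_primes` of `Pool/Agent/Y843/HG/Gold.lean`).
-/

set_option autoImplicit false

namespace Pool.Agent.T2H22.NP

open Finset Filter
open Pool.Agent.Y843.HG

/-- `m` is a prime, or all prime factors of `m` are larger than `n ^ (1 / r)` -/
def PR (r n m : ℕ) : Prop :=
  m.Prime ∨ ∀ q : ℕ, q.Prime → q ∣ m → (n : ℝ) ^ (1 / (r : ℝ)) < q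

theorem goldR {k : ℕ} (hk : 1 ≤ k) (r₀ : ℕ) (hr₀ : 1 ≤ r₀) {θ ε : ℝ} (hθ : 0 < θ) (hε : 0 < ε) :
    ∃ B n₀ : ℕ, ∀ n : ℕ, n₀ ≤ n → Even n → ∀ y H : ℕ, (n : ℝ) ^ θ ≤ H → y + H ≤ n →
    ∀ S : Finset ℕ, S ⊆ Ioc y (y + H) → (∀ p ∈ S, PR r₀ n p ∧ PR r₀ n (n - p)) →
      ((Iso k (Real.log n ^ B) S).card : ℝ) ≤ ε * (H * (n / (n.totient * Real.log n ^ 2))) := by
  classical
  set r := max r₀ ⌈2 / θ⌉₊ with hr
  have hr1 : 1 ≤ r := hr₀.trans (le_max_left _ _)
  have hr0 : (0 : ℝ) < r := by exact_mod_cast hr1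
  have hr2 : 2 / θ ≤ r := (Nat.le_ceil _).trans (by exact_mod_cast le_max_right _ _)
  have hrr₀ : (r₀ : ℝ) ≤ r := by exact_mod_cast le_max_left _ _
  have hr₀0 : (0 : ℝ) < r₀ := by exact_mod_cast hr₀
  obtain ⟨B, n₁, hn₁⟩ := gold hk r hr1 hθ (show 0 < ε / 2 by positivity)
  have hlit : ∀ᶠ x : ℝ in atTop, Real.log x ^ 2 * (2 * x ^ (θ / 2) + 2) ≤ ε / 2 * x ^ θ := by
    have h1 := (isLittleO_log_rpow_atTop (show 0 < θ / 8 by positivity)).bound
      (show (0 : ℝ) < 1 by norm_num)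
    have h2 := (tendsto_rpow_atTop (show 0 < θ / 4 by positivity)).eventually
      (eventually_ge_atTop (4 / (ε / 2)))
    filter_upwards [h1, h2, eventually_ge_atTop 1] with x hx1 hx2 hx3
    have hx0 : 0 < x := by linarith
    have hl0 : 0 ≤ Real.log x := Real.log_nonneg hx3
    rw [one_mul, Real.norm_of_nonneg hl0, Real.norm_of_nonneg (by positivity)] at hx1
    have e1 : Real.log x ^ 2 ≤ x ^ (θ / 4) := by
      calc Real.log x ^ 2 ≤ (x ^ (θ / 8)) ^ 2 := pow_le_pow_left₀ hl0 hx1 2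
        _ = x ^ (θ / 4) := by
            rw [← Real.rpow_natCast, ← Real.rpow_mul hx0.le]
            congr 1
            push_cast
            ring
    have e2 : 1 ≤ x ^ (θ / 2) := Real.one_le_rpow hx3 (by positivity)
    rw [div_le_iff₀ (by positivity)] at hx2
    calc Real.log x ^ 2 * (2 * x ^ (θ / 2) + 2) ≤ x ^ (θ / 4) * (4 * x ^ (θ / 2)) := by
          apply mul_le_mul e1 (by linarith) (by positivity) (by positivity)
      _ ≤ x ^ (θ / 4) * ((x ^ (θ / 4) * (ε / 2)) * x ^ (θ / 2)) := by gcongr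
      _ = ε / 2 * (x ^ (θ / 4) * x ^ (θ / 4) * x ^ (θ / 2)) := by ring
      _ = ε / 2 * x ^ θ := by
          rw [← Real.rpow_add hx0, ← Real.rpow_add hx0]
          congr 2
          ring
  have hlit' := (tendsto_natCast_atTop_atTop (R := ℝ)).eventually hlit
  rw [eventually_atTop] at hlit'
  obtain ⟨n₂, hn₂⟩ := hlit'
  refine ⟨B, max (max n₁ n₂) 3, ?_⟩
  intro n hn hne y H hH hHn S hS hSp
  have hnn₁ : n₁ ≤ n := (le_max_left _ _).trans ((le_max_left _ _).trans hn)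
  have hnn₂ : n₂ ≤ n := (le_max_right _ _).trans ((le_max_left _ _).trans hn)
  have hn3 : 3 ≤ n := (le_max_right _ _).trans hn
  have hn0 : (0 : ℝ) < n := by exact_mod_cast (show 0 < n by omega)
  have hn1 : (1 : ℝ) ≤ n := by exact_mod_cast (show 1 ≤ n by omega)
  set w := (n : ℝ) ^ (1 / (r : ℝ)) with hw
  have hw0 : 0 ≤ w := by positivity
  have hwr₀ : w ≤ (n : ℝ) ^ (1 / (r₀ : ℝ)) := by
    apply Real.rpow_le_rpow_of_exponent_le hn1
    exact one_div_le_one_div_of_le hr₀0 hrr₀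
  have hwθ : w ≤ (n : ℝ) ^ (θ / 2) := by
    apply Real.rpow_le_rpow_of_exponent_le hn1
    rw [div_le_iff₀ hr0]
    rw [div_le_iff₀ hθ] at hr2
    linarith
  set S₁ := S.filter (fun p : ℕ => w < (p : ℝ) ∧ w < ((n - p : ℕ) : ℝ)) with hS₁
  set S₂ := S.filter (fun p : ℕ => ¬ (w < (p : ℝ) ∧ w < ((n - p : ℕ) : ℝ))) with hS₂
  have hS₁S : S₁ ⊆ S := filter_subset _ _
  have hle : ∀ p ∈ S, p ≤ n := by
    intro p hp
    have := mem_Ioc.1 (hS hp)
    omega
  have hPR : ∀ m : ℕ, PR r₀ n m → w < (m : ℝ) → ∀ q : ℕ, q.Prime → (q : ℝ) ≤ w → ¬ q ∣ m := by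
    intro m hm hwm q hq hqw hqm
    rcases hm with hm | hm
    · have := (Nat.prime_dvd_prime_iff_eq hq hm).1 hqm
      rw [this] at hqw
      linarith
    · have := hm q hq hqm
      linarith
  have h1 := hn₁ n hnn₁ hne y H hH (by omega) S₁ (hS₁S.trans hS) (by
    intro p hp q hq hqw
    rw [hS₁, mem_filter] at hp
    obtain ⟨hpS, hp1, hp2⟩ := hp
    obtain ⟨hpp, hnp⟩ := hSp p hpS
    constructor
    · exact hPR p hpp hp1 q hq hqw
    · intro hmod
      have h2 : q ∣ n - p := (Nat.modEq_iff_dvd' (hle p hpS)).1 hmod.symm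
      exact hPR _ hnp hp2 q hq hqw h2)
  have h2 : Iso k (Real.log n ^ B) S ⊆ Iso k (Real.log n ^ B) S₁ ∪ S₂ := by
    intro p hp
    unfold Iso at hp
    rw [mem_filter] at hp
    rw [mem_union]
    by_cases h3 : w < (p : ℝ) ∧ w < ((n - p : ℕ) : ℝ)
    · left
      unfold Iso
      rw [mem_filter]
      exact ⟨by rw [hS₁, mem_filter]; exact ⟨hp.1, h3⟩, fun hcon => hp.2 (hcon.mono le_rfl hS₁S)⟩
    · right
      rw [hS₂, mem_filter]
      exact ⟨hp.1, h3⟩
  have h3 : (S₂.card : ℝ) ≤ 2 * w + 2 := by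
    have h4 : S₂ ⊆ Icc 0 ⌊w⌋₊ ∪ (Icc 0 ⌊w⌋₊).image (fun q => n - q) := by
      intro p hp
      rw [hS₂, mem_filter] at hp
      rw [mem_union, mem_Icc, mem_image]
      obtain ⟨hpS, hp1⟩ := hp
      rw [not_and_or, not_lt, not_lt] at hp1
      rcases hp1 with h5 | h5
      · left
        exact ⟨Nat.zero_le _, Nat.le_floor h5⟩
      · right
        refine ⟨n - p, ?_, ?_⟩
        · rw [mem_Icc]
          exact ⟨Nat.zero_le _, Nat.le_floor h5⟩
        · have := hle p hpS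
          omega
    have h5 : S₂.card ≤ 2 * (⌊w⌋₊ + 1) := by
      refine (card_le_card h4).trans ((card_union_le _ _).trans ?_)
      have h6 := card_image_le (s := Icc 0 ⌊w⌋₊) (f := fun q => n - q)
      rw [Nat.card_Icc] at h6 ⊢
      omega
    have h6 : (S₂.card : ℝ) ≤ 2 * ((⌊w⌋₊ : ℝ) + 1) := by exact_mod_cast h5
    have := Nat.floor_le hw0
    linarith
  have hlog0 : 0 < Real.log n := Real.log_pos (by exact_mod_cast (show 1 < n by omega))
  have hφ0 : (0 : ℝ) < n.totient := by exact_mod_cast Nat.totient_pos.2 (show 0 < n by omega)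
  have h4 : 2 * w + 2 ≤ ε / 2 * (H * (n / (n.totient * Real.log n ^ 2))) := by
    have h5 := hn₂ n hnn₂
    have h6 : (1 : ℝ) / Real.log n ^ 2 ≤ n / (n.totient * Real.log n ^ 2) := by
      rw [div_le_div_iff₀ (by positivity) (by positivity)]
      have : (n.totient : ℝ) ≤ n := by exact_mod_cast Nat.totient_le n
      have h7 := mul_le_mul_of_nonneg_right this (show 0 ≤ Real.log n ^ 2 by positivity)
      linarith
    have h7 : 2 * w + 2 ≤ ε / 2 * ((n : ℝ) ^ θ * (1 / Real.log n ^ 2)) := by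
      rw [← mul_assoc, mul_one_div, le_div_iff₀ (by positivity)]
      have h8 : (2 * w + 2) * Real.log n ^ 2 ≤ Real.log n ^ 2 * (2 * (n : ℝ) ^ (θ / 2) + 2) := by
        rw [mul_comm]
        apply mul_le_mul_of_nonneg_left (by linarith) (by positivity)
      exact h8.trans h5
    refine h7.trans ?_
    apply mul_le_mul_of_nonneg_left _ (by positivity)
    exact mul_le_mul hH h6 (by positivity) (Nat.cast_nonneg _)
  have h5 : ((Iso k (Real.log n ^ B) S).card : ℝ) ≤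
      ((Iso k (Real.log n ^ B) S₁).card : ℝ) + S₂.card := by
    have := (card_le_card h2).trans (card_union_le _ _)
    exact_mod_cast this
  linarith

end Pool.Agent.T2H22.NP
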